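import Pool.Agent.H88.BL.Targets

set_option autoImplicit false

/-!
# Rows GOO and BAD of the board bll_modules
-/

namespace Pool.Agent.H32.BL

open Pool.Agent.H88.BL

theorem gp_le (hC : T_COS) (t : ℝ) (N : ℕ) (y : ℝ) :
    gp t N y ≤ Real.exp (-(2 * ∑ i ∈ Finset.range N, nd (y * t ^ i) ^ 2)) := by
  unfold gp
  rw [Finset.mul_sum, ← Finset.sum_neg_distrib, Real.exp_sum]
  exact Finset.prod_le_prod (fun i _ => abs_nonneg _) fun i _ => hC _

theorem pw_lo {t : ℝ} {N : ℕ} (hP : Par t N) {i : ℕ} (hi : i < N) : 1 / 3 ≤ t ^ i ∧ t ^ i ≤ 1 :=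
  ⟨hP.lo.trans (pow_le_pow_of_le_one hP.pos.le hP.lt.le hi.le), pow_le_one₀ hP.pos.le hP.lt.le⟩

theorem sum_lo (hN : T_NDT) {t : ℝ} {N : ℕ} (hP : Par t N) {y : ℝ} (h1 : 1 / 6 ≤ |y|) (h2 : |y| ≤ 1 / 2) :
    (N : ℝ) / 324 ≤ ∑ i ∈ Finset.range N, nd (y * t ^ i) ^ 2 := by
  have h3 : ∑ i ∈ Finset.range N, (1 / 324 : ℝ) ≤ ∑ i ∈ Finset.range N, nd (y * t ^ i) ^ 2 := by
    apply Finset.sum_le_sum
    intro i hi
    obtain ⟨h4, h5⟩ := pw_lo hP (Finset.mem_range.mp hi)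
    have h6 : |y * t ^ i| = |y| * t ^ i := by
      rw [abs_mul, abs_of_nonneg (pow_nonneg hP.pos.le i)]
    have h7 : |y * t ^ i| ≤ 1 / 2 := by
      rw [h6]
      nlinarith [abs_nonneg y]
    rw [hN.2 _ h7, h6]
    have h8 : 1 / 18 ≤ |y| * t ^ i := by nlinarith [abs_nonneg y]
    nlinarith
  rw [Finset.sum_const, Finset.card_range, nsmul_eq_mul] at h3
  linarith

theorem good_lt (hC : T_COS) {t : ℝ} {N : ℕ} {y : ℝ} (h : cost N < gp t N y) :
    ∑ i ∈ Finset.range N, nd (y * t ^ i) ^ 2 < (N : ℝ) / 1296 := by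
  have h1 := lt_of_lt_of_le h (gp_le hC t N y)
  unfold cost at h1
  rw [Real.exp_lt_exp] at h1
  linarith

theorem pf_GOO (hC : T_COS) (hN : T_NDT) : T_GOO := by
  intro t N hP y y' hyy hg hg'
  by_contra hcon
  push Not at hcon
  have h1 := sum_lo hN hP hcon hyy
  have h2 := good_lt hC hg
  have h3 := good_lt hC hg'
  have h4 : ∑ i ∈ Finset.range N, nd ((y - y') * t ^ i) ^ 2 ≤
      2 * ∑ i ∈ Finset.range N, nd (y * t ^ i) ^ 2 + 2 * ∑ i ∈ Finset.range N, nd (y' * t ^ i) ^ 2 := by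
    rw [Finset.mul_sum, Finset.mul_sum, ← Finset.sum_add_distrib]
    apply Finset.sum_le_sum
    intro i _
    have h5 := hN.1 (y * t ^ i) (y' * t ^ i)
    rw [← sub_mul] at h5
    have h6 : 0 ≤ nd ((y - y') * t ^ i) := abs_nonneg _
    nlinarith [sq_nonneg (nd (y * t ^ i) - nd (y' * t ^ i))]
  linarith

theorem pf_BAD (hC : T_COS) (hN : T_NDT) : T_BAD := by
  intro t N hP y h1 h2
  refine (gp_le hC t N y).trans ?_
  unfold cost
  rw [Real.exp_le_exp]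
  have h3 := sum_lo hN hP h1 h2
  have h4 : (0 : ℝ) ≤ N := Nat.cast_nonneg N
  linarith

end Pool.Agent.H32.BL
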